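import Pool.Agent.H95.EM.Exact

/-!
# Finite generation of étale motivic cohomology and double coverings of affine spaces over `ℤ`

Let `H n i X = H^i(X_et, ℤ^c(n))` be the étale motivic cohomology of the arithmetic schemes `X` (the
separated schemes of finite type over `ℤ`) in the weights `n < 0`. Question Q1 asks whether these groups
are finitely generated (for the proper regular `X`). The structure `IsFlatEtaleMotivic` lists the
properties which are used: localization sequences, homotopy invariance (for affine bundles, and for flat
morphisms with affine spaces as fibres; it shifts the weight by the dimension of the fibre),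
`𝔾_m`-factors, transfer for the coverings `s ^ d = u`, finiteness of the torsion, open and closed
subschemes, and the known case of the schemes of dimension at most one.

For polynomials `f_1, …, f_m` over `ℤ` in the variables `z` let `dblS f` be the double covering
`w (w - 1) = ∑ x_l f_l(z)` of the affine space over `ℤ` with the coordinates `z` and `x_1, …, x_m`, and
`zeroS f` the closed subscheme `f_1 = … = f_m = 0` of the affine space with the coordinates `z`. For a
trilinear form `t(x, y, z) = ∑ t_ijl x_i y_j z_l` the polynomials `bq t` are the bilinear forms
`∑ t_ijl x_i y_j`; so `dblS (bq t)` is the covering `w (w - 1) = t(x, y, z)`.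

**Theorem.** (1) The coverings are smooth over `ℤ`. For all polynomials `f_1, …, f_m` and all `n < 0`, the
groups `H^i(X, ℤ^c(n))`, `i ∈ ℤ`, of the covering `X` are finitely generated if and only if the groups
`H^i(Z, ℤ^c(n - m))`, `i ∈ ℤ`, of the scheme `Z : f = 0` are.

(2) If the groups of all weights `n < 0` are finitely generated for the arithmetic schemes of dimension at
most `N` (this is known for `N = 1`), then they are for the coverings `w (w - 1) = ∑ x_l f_l(z)` with `N`
variables `z` or with a scheme `f = 0` of dimension at most `N`, and for the coverings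
`w (w - 1) = t(x, y, z)` with at most `N + 1` variables `y`.

(3) For `N = 1` the conclusions are true unconditionally.

(4) All arithmetic schemes reduce to the coverings `w (w - 1) = ∑ x_l f_l(y, z)` with the bilinear forms
`f_l` which are sums of at most three monomials `y_i z_j`: for every `X` there are finitely many such
coverings and a number `b` such that for all `H` and `a`, if the groups `H^i(Y, ℤ^c(n))`, `n < - a`, of
these coverings `Y` are finitely generated, then so are the groups `H^i(X, ℤ^c(n))`, `n < - (a + b)`. So
the groups of all sufficiently negative weights are finitely generated for all arithmetic schemes if and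
only if they are for these coverings.

(5) In the same way, for every `N`, the closed subschemes of the affine space of dimension `N` over `ℤ`
reduce to the coverings `w (w - 1) = t(x, y, z)` with `N + 1` variables `z`, and conversely.
-/

set_option autoImplicit false

open CategoryTheory AlgebraicGeometry MvPolynomial Pool.Agent.Y116.UV Pool.Agent.H91.QW
  Pool.Agent.H95.DC Pool.Agent.H95.EM

namespace Pool.Agent.Results.MP_c1eb4d_ag.CoveringsOfAffineSpaces

/-- **Finite generation of étale motivic cohomology and double coverings of affine spaces over `ℤ`.** See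
the explanations above. -/
theorem result :
    (∀ H : ℤ → ℤ → Sch ℤ → ModuleCat.{0} ℤ, IsFlatEtaleMotivic H →
      (∀ (σ : Type) [Fintype σ] (m : ℕ) (f : Fin m → MvPolynomial σ ℤ), Smooth (dblS f).hom ∧
        ∀ n < 0, FG H n (dblS f) ↔ FG H (n - m) (zeroS f)) ∧
      (∀ N : ℕ, (FGDim H N ∨ N = 1) →
        (∀ (m : ℕ) (f : Fin m → MvPolynomial (Fin N) ℤ), FGBelow H 0 (dblS f)) ∧
        (∀ (k m : ℕ) (f : Fin m → MvPolynomial (Fin k) ℤ),
          topologicalKrullDim (zeroS f).left ≤ N → FGBelow H 0 (dblS f)) ∧
        ∀ (a b c : ℕ) (t : Fin a → Fin b → Fin c → ℤ), b ≤ N + 1 → FGBelow H 0 (dblS (bq t))) ∧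
      ((∀ X : Sch ℤ, FT True X → Eventually H X) ↔
        ∀ (a b c : ℕ) (E : Fin c → Finset (Fin a × Fin b)), (∀ l, (E l).card ≤ 3) →
          Eventually H (dblS (bf ℤ E)))) ∧
    (∀ X : Sch ℤ, FT True X → ReducesTo sparse X) ∧
    ∀ N : ℕ, (∀ Y ∈ closedIn N, ReducesTo (forms (N + 1)) Y) ∧
      ∀ Y ∈ forms (N + 1), ReducesTo (closedIn N) Y :=
  ⟨fun H hH => ⟨fun σ _ m f => ⟨smooth_dbl f, fun n hn => exact_iff hH hn f⟩,
    fun N hN => by
      rcases hN with hN | rfl
      · exact few hH hN
      · exact few hH (fgDim_one hH.toIsEtaleMotivic),
    all_iff hH⟩, reduces_sparse,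
    fun N => ⟨closed_to_forms N, forms_to_closed N⟩⟩

end Pool.Agent.Results.MP_c1eb4d_ag.CoveringsOfAffineSpaces
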