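import Pool.Agent.H57.EM.Main
import Pool.Agent.H57.GE.Defs
import Pool.Agent.H57.GD.Main

/-!
# MP_c1eb4d_ag: étale motivic cohomology of arithmetic schemes and graph hypersurfaces

Let `H n i X = H^i(X_et, ℤ^c(n))` be the étale motivic cohomology of the arithmetic schemes `X` (the
separated schemes of finite type over `ℤ`) in the weights `n < 0`. Question Q1 asks whether these groups
are finitely generated (for the proper regular `X`). The structure `IsEtaleMotivic` lists the known
properties which are used: localization sequences, homotopy invariance for affine bundles (which shifts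
the weight by the dimension of the fibre), `𝔾_m`-factors and the known case of the schemes of dimension
at most one.

For a finite simple graph `G` with the set of edges `E` let `kir G = ∑_T ∏_{e ∈ T} x_e` be its Kirchhoff
polynomial; the sum is over the spanning trees `T` of `G`. Let `hypS ℤ G` be the graph hypersurface
`kir G = 0` in the affine space `A^E` over `ℤ`, and let `graphS ℤ G` be its complement, where `kir G` is
invertible. `MaxThree G` means that all vertices of `G` have degree at most three.

**Theorem.** (1) For every arithmetic scheme `X` there are a number `b` and finitely many graphs `G_s` with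
`MaxThree G_s` such that for all étale motivic cohomologies and all `a`: if all groups
`H^i(Y_et, ℤ^c(n))`, `n < - a`, `i ∈ ℤ`, are finitely generated for the finitely many schemes
`Y = graphS ℤ G_s`, then all groups `H^i(X_et, ℤ^c(n))`, `n < - (a + b)`, are finitely generated.
(2) The same is true for the graph hypersurfaces `hypS ℤ G`.
(3) The following are equivalent: for each arithmetic scheme `X` all groups `H^i(X_et, ℤ^c(n))` of all
sufficiently negative weights `n` are finitely generated; this is true for the smooth schemes
`graphS ℤ G`, `MaxThree G`; this is true for the graph hypersurfaces `hypS ℤ G`, `MaxThree G`.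

Proof. The property in (1) has the closure properties `Bnd` (`Pool/Agent/H57/EM/Main.lean`). The Kirchhoff
polynomials of a graph, of the graph with an edge `e` deleted, and of the graph with `e` subdivided are
`A + x B`, `A` and `(x + x') A + x x' B`, with the Kirchhoff polynomial `B` of the graph with `e` contracted;
from these three loci one gets the locus of `B` (`GD/Contr.lean`), and every graph is obtained from graphs of
maximal degree three by such contractions (`GD/Split.lean`, `GD/Deg.lean`, `GD/Fin.lean`). If one vertex
is joined to all others, the complement of the graph hypersurface is the scheme of the invertible symmetric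
matrices with zeros at some places outside of the diagonal and with a free diagonal, by the matrix-tree
theorem (`GH/Kir.lean`, `GH/Graph.lean`). By the elimination of rows one can put zeros on the diagonal
(`GH/Sym.lean`), and in this way one gets the schemes of the invertible matrices with prescribed zeros
(`GH/Ind.lean`), which are universal (`ZP/Conf.lean`).
-/

set_option autoImplicit false

open CategoryTheory AlgebraicGeometry Pool.Agent.Y116.UV Pool.Agent.H91.QW Pool.Agent.H57.EM
  Pool.Agent.H57.GH Pool.Agent.H57.GD Pool.Agent.H57.GE

namespace Pool.Agent.Results.MP_c1eb4d_ag.GraphHypersurfaces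

/-- All groups `H^i(X_et, ℤ^c(n))` of all sufficiently negative weights `n` are finitely generated. -/
def Eventually (H : ℤ → ℤ → Sch ℤ → ModuleCat.{0} ℤ) (X : Sch ℤ) : Prop :=
  ∃ a : ℕ, FGBelow H a X

/-- **Étale motivic cohomology of arithmetic schemes and graph hypersurfaces.**
(1), (2) Finite generation for every arithmetic scheme `X` reduces, up to a shift of the weights, to
finitely many complements of graph hypersurfaces; and to finitely many graph hypersurfaces; all vertices of
the graphs have degree at most three. (3) Finite generation of the groups
`H^i(X_et, ℤ^c(n))` of all sufficiently negative weights for all arithmetic schemes is equivalent to its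
cases for these two families. -/
theorem result :
    (∀ X : Sch ℤ, FT True X → ReducesTo graphComplements X) ∧
    (∀ X : Sch ℤ, FT True X → ReducesTo graphHypersurfaces X) ∧
    ∀ H : ℤ → ℤ → Sch ℤ → ModuleCat.{0} ℤ, IsEtaleMotivic H →
      [∀ X : Sch ℤ, FT True X → Eventually H X,
        ∀ (V : Type) [Finite V] (G : SimpleGraph V), MaxThree G → Eventually H (graphS ℤ G),
        ∀ (V : Type) [Finite V] (G : SimpleGraph V), MaxThree G →
          Eventually H (hypS ℤ G)].TFAE := by
  have reduces_gr : ∀ X : Sch ℤ, FT True X → ReducesTo graphComplements X := fun X hX =>
    universal_S (P := ReducesTo graphComplements) frac_int (bnd_reduces _)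
      (fun V _ G hG => reduces_mem (F := graphComplements) ⟨V, inferInstance, G, hG, rfl⟩) X hX
  have reduces_hy : ∀ X : Sch ℤ, FT True X → ReducesTo graphHypersurfaces X := fun X hX =>
    universal_S (P := ReducesTo graphHypersurfaces) frac_int (bnd_reduces _)
      (fun V _ G hG => graphS_of_hyp (bnd_reduces _) G
        (reduces_mem (F := graphHypersurfaces) ⟨V, inferInstance, G, hG, rfl⟩)) X hX
  refine ⟨reduces_gr, reduces_hy, fun H hH => ?_⟩
  have key : ∀ (F : Set (Sch ℤ)), (∀ Y ∈ F, Eventually H Y) → ∀ X : Sch ℤ, ReducesTo F X →
      Eventually H X := by
    intro F hF X hX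
    obtain ⟨b, L, h1, h2, h3⟩ := hX
    choose! c hc using fun Y (hY : Y ∈ L) => hF Y (h2 hY)
    refine ⟨(∑ Y ∈ h1.toFinset, c Y) + b, h3 H hH _ fun Y hY => fg_mono ?_ (hc Y hY)⟩
    exact Finset.single_le_sum (f := c) (fun _ _ => Nat.zero_le _) (h1.mem_toFinset.mpr hY)
  tfae_have 1 → 2 := fun h V _ G _ => h _ (ft_graphS ℤ G True)
  tfae_have 1 → 3 := fun h V _ G _ => h _ (ft_aff True)
  tfae_have 2 → 1 := fun h X hX => key _ (by rintro Y ⟨V, hV, G, hG, rfl⟩; exact h V G hG) X
    (reduces_gr X hX)
  tfae_have 3 → 1 := fun h X hX => key _ (by rintro Y ⟨V, hV, G, hG, rfl⟩; exact h V G hG) X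
    (reduces_hy X hX)
  tfae_finish

end Pool.Agent.Results.MP_c1eb4d_ag.GraphHypersurfaces
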