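import Pool.Agent.H57.EM.Main

/-!
# MP_c1eb4d_ag: étale motivic cohomology of arithmetic schemes and matrices with prescribed zeros

Let `H n i X = H^i(X_et, ℤ^c(n))` be the étale motivic cohomology of the arithmetic schemes `X` (the
separated schemes of finite type over `ℤ`) in the weights `n < 0`. Question Q1 asks whether these groups
are finitely generated (for the proper regular `X`). The structure `IsEtaleMotivic` lists the known
properties which are used: localization sequences, homotopy invariance for affine bundles (which shifts
the weight by the dimension of the fibre), `𝔾_m`-factors and the known case of the schemes of dimension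
at most one.

For a finite set `Z` of places of an `m × m` matrix let `glS ℤ Z` be the smooth affine scheme over `ℤ` of
the invertible matrices with zeros at the places in `Z`: the open subscheme `det ≠ 0` of an affine space
over `ℤ`, each coordinate of which occurs at exactly one place of the matrix. `ThreeZ Z` means that each
row and each column has at most three places outside of `Z`. For a finite set `Z` of places of an
`l × m` matrix let `rkS ℤ Z` be the affine scheme over `ℤ` of the matrices of rank at most three with
zeros at the places in `Z`.

**Theorem.** (1) For every arithmetic scheme `X` there are a number `b` and finitely many sets `Z_s` with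
`ThreeZ Z_s` such that for all étale motivic cohomologies and all `a`: if all groups
`H^i(Y_et, ℤ^c(n))`, `n < - a`, `i ∈ ℤ`, are finitely generated for the finitely many schemes
`Y = glS ℤ Z_s`, then all groups `H^i(X_et, ℤ^c(n))`, `n < - (a + b)`, are finitely generated.
(2) The same is true for the schemes `rkS ℤ Z`.
(3) The following are equivalent: for each arithmetic scheme `X` all groups `H^i(X_et, ℤ^c(n))` of all
sufficiently negative weights `n` are finitely generated; this is true for the schemes `glS ℤ Z`,
`ThreeZ Z`; this is true for the schemes `rkS ℤ Z`.

Proof. The property in (1) has the closure properties `Bnd`: closed-open decompositions, affine bundles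
in both directions and division by `𝔾_m` (`Pool/Agent/H57/EM/Main.lean`). All schemes of finite type over
`ℤ` are obtained from the schemes `glS ℤ Z` (from the schemes `rkS ℤ Z`) by these operations
(`Pool/Agent/H57/ZP/Three.lean`, `Pool/Agent/H57/ZP/Main.lean`: bordered matrices, splitting of rows and
columns, and configurations as in the theorem of Mnëv).
-/

set_option autoImplicit false

open CategoryTheory AlgebraicGeometry Pool.Agent.Y116.UV Pool.Agent.H91.QW Pool.Agent.H57.ZP
  Pool.Agent.H57.EM

namespace Pool.Agent.Results.MP_c1eb4d_ag.MatrixCompletions

/-- All groups `H^i(X_et, ℤ^c(n))` of all sufficiently negative weights `n` are finitely generated. -/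
def Eventually (H : ℤ → ℤ → Sch ℤ → ModuleCat.{0} ℤ) (X : Sch ℤ) : Prop :=
  ∃ a : ℕ, FGBelow H a X

/-- **Étale motivic cohomology of arithmetic schemes and matrices with prescribed zeros.**
(1), (2) Finite generation for every arithmetic scheme `X` reduces, up to a shift of the weights, to
finitely many schemes of the invertible matrices with prescribed zeros, with at most three other places
in each row and each column; and to finitely many schemes of the matrices of rank at most three with
prescribed zeros. (3) Finite generation of the groups `H^i(X_et, ℤ^c(n))` of all sufficiently negative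
weights for all arithmetic schemes is equivalent to its cases for these two families. -/
theorem result :
    (∀ X : Sch ℤ, FT True X → ReducesTo invertibleMatrices X) ∧
    (∀ X : Sch ℤ, FT True X → ReducesTo rankMatrices X) ∧
    ∀ H : ℤ → ℤ → Sch ℤ → ModuleCat.{0} ℤ, IsEtaleMotivic H →
      [∀ X : Sch ℤ, FT True X → Eventually H X,
        ∀ (n : ℕ) (Z : Finset (Fin n × Fin n)), ThreeZ Z → Eventually H (glS ℤ Z),
        ∀ (m n : ℕ) (Z : Finset (Fin m × Fin n)), Eventually H (rkS ℤ Z)].TFAE := by
  refine ⟨reduces_gl, reduces_rk, fun H hH => ?_⟩
  have key : ∀ (F : Set (Sch ℤ)), (∀ Y ∈ F, Eventually H Y) → ∀ X : Sch ℤ, ReducesTo F X →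
      Eventually H X := by
    intro F hF X hX
    obtain ⟨b, L, h1, h2, h3⟩ := hX
    choose! c hc using fun Y (hY : Y ∈ L) => hF Y (h2 hY)
    refine ⟨(∑ Y ∈ h1.toFinset, c Y) + b, h3 H hH _ fun Y hY => fg_mono ?_ (hc Y hY)⟩
    exact Finset.single_le_sum (f := c) (fun _ _ => Nat.zero_le _) (h1.mem_toFinset.mpr hY)
  have hft : ∀ (n : ℕ) (Z : Finset (Fin n × Fin n)), FT True (glS ℤ Z) := by
    intro n Z
    have h1 : Algebra.FiniteType ℤ (Localization.Away (genMat ℤ Z).det) :=
      Algebra.FiniteType.trans (S := MvPolynomial {x : Fin n × Fin n // x ∉ Z} ℤ) inferInstance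
        inferInstance
    exact ft_aff True
  tfae_have 1 → 2 := fun h n Z _ => h _ (hft n Z)
  tfae_have 1 → 3 := fun h m n Z => h _ (ft_aff True)
  tfae_have 2 → 1 := fun h X hX => key _ (by rintro Y ⟨n, Z, hZ, rfl⟩; exact h n Z hZ) X
    (reduces_gl X hX)
  tfae_have 3 → 1 := fun h X hX => key _ (by rintro Y ⟨m, n, Z, rfl⟩; exact h m n Z) X
    (reduces_rk X hX)
  tfae_finish

end Pool.Agent.Results.MP_c1eb4d_ag.MatrixCompletions
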