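import Pool.Agent.H91.QW.FG

/-!
# Finite generation of étale motivic cohomology and families of systems of quadratic equations

Let `H n i X = H^i(X_et, ℤ^c(n))` be the étale motivic cohomology of the arithmetic schemes `X` (the
separated schemes of finite type over `ℤ`) in the weights `n < 0`. Question Q1 asks whether these groups
are finitely generated (for the proper regular `X`). The structure `IsEtaleMotivic` lists the properties
which are used: localization sequences, homotopy invariance for affine bundles (which shifts the weight
by the dimension of the fibre), `𝔾_m`-factors, transfer for the coverings `s ^ d = u`, finiteness of the
torsion and the known case of the schemes of dimension at most one.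

For `d ≥ 0` let `Built d a`, `a = 0, 1, 2, …`, be the following classes of arithmetic schemes of
arbitrary dimension. `Built d 0` contains the affine schemes of dimension at most `d`; the classes increase
with `a`, and each one is closed under isomorphisms, closed-open decompositions (two out of three),
division by `𝔾_m` and descent along the coverings `s ^ e = u`, `u` a unit; for an affine bundle `J → U`
with fibre `𝔸^m`, if `J` is in `Built d a`, then `U` is in `Built d (a + m)`, and if `U` is in
`Built d a`, then `J` is in `Built d (max (a - m) 0)`.

**Theorem.** (1) For every `d`: all groups `H^i(X_et, ℤ^c(n))`, `n < 0`, are finitely generated for all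
arithmetic schemes `X` of dimension at most `d` if and only if, for all `a ≥ 0`, all groups
`H^i(X_et, ℤ^c(n))` with `n < - a` are finitely generated for all schemes `X` of the class `Built d a`.

(2) For all `a`, all groups `H^i(X_et, ℤ^c(n))`, `n < - a`, are finitely generated for the schemes of the
class `Built 1 a`.

(3) Let `A` be a ring of finite type over `ℤ` in which `2` is invertible, of dimension at most `s`, and
`s + r ≤ d`. The class `Built d r` contains all closed subschemes of the affine spaces over `Spec A` given
by `r + 1` equations of degree at most two and any number of equations of degree at most one in the
coordinates of the affine space (without conditions on the coefficients, that is, the fibres can be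
arbitrary intersections of `r + 1` quadrics and can jump). In particular `Built d 0` contains all
families of quadrics over bases of dimension at most `d`. Moreover `Built d 0` contains all torus schemes
of complexity at most `d` and all schemes built from them.

(4) So if all groups `H^i(X_et, ℤ^c(n))`, `n < 0`, are finitely generated for the arithmetic schemes of
dimension at most `d`, then the groups `H^i(X_et, ℤ^c(n))`, `n < - r`, are finitely generated for the
families in (3).

By localization this applies to all schemes, for example to proper regular ones, which have a
decomposition into such pieces: to closed subschemes of projective bundles given by `r + 1` quadratic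
equations. For example finite generation for arithmetic surfaces implies finite generation in all weights
`n < 0` for the quadric bundles (of any relative dimension, with arbitrary degenerations) over arithmetic
surfaces, and in the weights `n < - 1` for the intersections of two quadrics over number rings
(`d = 2`, residue characteristics `≠ 2`).

The proof: let `q_0 = ⋯ = q_r = 0`, `b = 0` be such a system over `Spec A` and `U` the complement of
`q = 0` in the scheme `b = 0`. The affine bundle `∑ w_l q_l(x) = 1` over `U` is decomposed by the last
nonvanishing coordinate `w_l`; the pieces are complements of families of quadrics
`q_l + ∑_{m > l} w_m q_m = 0` over the affine spaces of dimension at most `r` over `Spec A`, up to products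
with `𝔾_m`. So only the last step, from the bundle to `U`, shifts the weights. A family of quadrics over
a base of dimension at most `d` is treated by diagonalization over strata of the base; two variables
become a hyperbolic plane after a double covering of the base, and are eliminated by a closed-open
decomposition.
-/

set_option autoImplicit false

open CategoryTheory AlgebraicGeometry Pool.Agent.Y116.UV Pool.Agent.H91.QW

namespace Pool.Agent.Results.MP_c1eb4d_ag.QuadraticSystems

/-- **Finite generation of étale motivic cohomology and families of systems of quadratic equations.**
See the explanations above. -/
theorem result {H : ℤ → ℤ → Sch ℤ → ModuleCat.{0} ℤ} (hH : IsEtaleMotivic H) :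
    (∀ d : ℕ, FGDim H d ↔ ∀ (a : ℕ) (X : Sch ℤ), Built d a X → FGBelow H a X) ∧
    (∀ (a : ℕ) (X : Sch ℤ), Built 1 a X → FGBelow H a X) ∧
    (∀ d : ℕ, QuadricFamilies d (Built d) ∧
      ∀ X : Sch ℤ, Pool.Agent.W5h38.TV.Built d X → Built d 0 X) ∧
    (∀ d : ℕ, FGDim H d → QuadricFamilies d (FGBelow H)) :=
  ⟨fun _ => fgDim_iff hH, fun _ _ hX => built_fg hH (fgDim_one hH) hX,
    fun d => ⟨quadricFamilies_built d, fun _ hX => torus_built d hX⟩,
    fun d h A _ _ s r h2 hs hn N m b q hb hq =>
      built_fg hH h (quadricFamilies_built d A s r h2 hs hn N m b q hb hq)⟩

end Pool.Agent.Results.MP_c1eb4d_ag.QuadraticSystems
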